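import Pool.Agent.Y300.KS.Stm

/-! Kostlan systems: configurations of limit cycles (S_EXT, S_NEG, S_CONF). -/

open Set MeasureTheory ProbabilityTheory Filter Topology

namespace Pool.Agent.Y968.KS

open Pool.Agent.K300 Pool.Agent.Y300.KS

theorem not_bdd_of_ray (C : Set (ℝ × ℝ)) (q e : ℝ × ℝ) (he : e ≠ 0)
    (h : ∀ t : ℝ, 0 ≤ t → q + t • e ∉ C) :
    ¬ Bornology.IsBounded (connectedComponentIn Cᶜ q) := by
  intro hb
  have hpre : IsPreconnected ((fun t : ℝ => q + t • e) '' Ici 0) :=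
    isPreconnected_Ici.image _ (by fun_prop)
  have hq : q ∈ (fun t : ℝ => q + t • e) '' Ici 0 := ⟨0, by simp, by simp⟩
  have hsub : (fun t : ℝ => q + t • e) '' Ici 0 ⊆ Cᶜ := by
    rintro _ ⟨t, ht, rfl⟩
    exact h t ht
  have h1 := hpre.subset_connectedComponentIn hq hsub
  obtain ⟨M, hM⟩ := isBounded_iff_forall_norm_le.1 (hb.subset h1)
  have hne : 0 < ‖e‖ := norm_pos_iff.2 he
  have hM0 : 0 ≤ M := le_trans (norm_nonneg q) (hM q hq)
  have ht : 0 ≤ (M + ‖q‖ + 1) / ‖e‖ := by positivity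
  have h2 := hM (q + ((M + ‖q‖ + 1) / ‖e‖) • e) ⟨_, ht, rfl⟩
  have h3 : ‖((M + ‖q‖ + 1) / ‖e‖) • e‖ = M + ‖q‖ + 1 := by
    rw [norm_smul, Real.norm_of_nonneg ht, div_mul_cancel₀ _ hne.ne']
  have h4 : ‖((M + ‖q‖ + 1) / ‖e‖) • e‖ ≤ ‖q + ((M + ‖q‖ + 1) / ‖e‖) • e‖ + ‖q‖ := by
    have := norm_sub_le (q + ((M + ‖q‖ + 1) / ‖e‖) • e) q
    rwa [add_sub_cancel_left] at this
  linarith

theorem ext_all : S_EXT := by
  intro C D x₁ x₂ y₁ y₂ hD hC hD2 hS
  obtain ⟨q, hq⟩ := hD
  obtain ⟨-, hb⟩ := hS q hq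
  have hnot := hD2 q hq
  by_cases h1 : x₁ ≤ q.1
  · by_cases h2 : q.1 ≤ x₂
    · by_cases h3 : y₁ ≤ q.2
      · have h4 : y₂ < q.2 := by
          by_contra h4
          exact hnot ⟨h1, h2, h3, not_lt.1 h4⟩
        refine not_bdd_of_ray C q (0, 1) (by simp) ?_ hb
        intro t ht hmem
        have := (hC _ hmem).2.2.2
        simp at this
        linarith
      · refine not_bdd_of_ray C q (0, -1) (by simp) ?_ hb
        intro t ht hmem
        have := (hC _ hmem).2.2.1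
        simp at this
        linarith
    · refine not_bdd_of_ray C q (1, 0) (by simp) ?_ hb
      intro t ht hmem
      have := (hC _ hmem).2.1
      simp at this
      linarith
  · refine not_bdd_of_ray C q (-1, 0) (by simp) ?_ hb
    intro t ht hmem
    have := (hC _ hmem).1
    simp at this
    linarith

theorem neg_one_side (C D : Set (ℝ × ℝ)) (h : Surr C D) :
    Surr (Neg.neg '' C) (Neg.neg '' D) := by
  rintro _ ⟨q, hq, rfl⟩
  obtain ⟨h1, h2⟩ := h q hq
  refine ⟨?_, ?_⟩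
  · rintro ⟨q', hq', he⟩
    exact h1 (by rwa [← neg_injective he])
  · have h3 := (Homeomorph.neg (ℝ × ℝ)).image_connectedComponentIn (s := Cᶜ) (x := q) h1
    have h4 : ((Homeomorph.neg (ℝ × ℝ)) '' Cᶜ) = (Neg.neg '' C)ᶜ := by
      rw [image_compl_eq (Homeomorph.neg (ℝ × ℝ)).bijective]
      rfl
    rw [h4] at h3
    have h5 : (Homeomorph.neg (ℝ × ℝ)) q = -q := rfl
    rw [h5] at h3
    rw [← h3]
    obtain ⟨M, hM⟩ := isBounded_iff_forall_norm_le.1 h2
    refine isBounded_iff_forall_norm_le.2 ⟨M, ?_⟩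
    rintro _ ⟨z, hz, rfl⟩
    have : (Homeomorph.neg (ℝ × ℝ)) z = -z := rfl
    rw [this, norm_neg]
    exact hM z hz

theorem neg_all : S_NEG := by
  intro C D
  constructor
  · intro h
    have h1 := neg_one_side _ _ h
    have h2 : ∀ A : Set (ℝ × ℝ), Neg.neg '' (Neg.neg '' A) = A := by
      intro A
      rw [image_image]
      simp
    rwa [h2, h2] at h1
  · exact neg_one_side C D

theorem conf_all (hr : S_RING) : S_CONF := by
  intro k r pp ρ B hsq hirr hasym S A A' x₀ y₀ s hx hy hs hyp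
  choose C hC1 hC2 hC3 using fun a => hr S A A' x₀ y₀ s (pp a) (ρ a) hx hy hs (hsq.pos a) (hyp a)
  -- monotonicity
  have hmono : ∀ (c : ℝ), 0 < c → ∀ u v : ℝ, c * Real.exp (u / s) ≤ c * Real.exp (v / s) → u ≤ v := by
    intro c hc u v h
    have h1 := (mul_le_mul_iff_right₀ hc).1 h
    have h2 := Real.exp_le_exp.1 h1
    exact (div_le_div_iff_of_pos_right hs).1 h2
  have hmono' : ∀ (c : ℝ), 0 < c → ∀ u v : ℝ, u ≤ v → c * Real.exp (u / s) ≤ c * Real.exp (v / s) := by
    intro c hc u v h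
    exact mul_le_mul_of_nonneg_left (Real.exp_le_exp.2 ((div_le_div_iff_of_pos_right hs).2 h)) hc.le
  have hinj : ∀ z z' : ℝ × ℝ, (x₀ * Real.exp (z.1 / s), y₀ * Real.exp (z.2 / s)) =
      (x₀ * Real.exp (z'.1 / s), y₀ * Real.exp (z'.2 / s)) → z = z' := by
    intro z z' h
    have h1 := congrArg Prod.fst h
    have h2 := congrArg Prod.snd h
    simp only at h1 h2
    exact Prod.ext (le_antisymm (hmono x₀ hx _ _ h1.le) (hmono x₀ hx _ _ h1.ge))
      (le_antisymm (hmono y₀ hy _ _ h2.le) (hmono y₀ hy _ _ h2.ge))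
  -- the three cases
  have hnest : ∀ a b, r a b → ∀ z : ℝ × ℝ, |z.1 - pp b| ≤ ρ b → |z.2| ≤ ρ b →
      |z.1 - pp a| < ρ a / 2 ∧ |z.2| < ρ a / 2 := by
    intro a b hab z h1 h2
    have h3 := hsq.nest a b hab
    have h4 : |z.1 - pp a| ≤ |z.1 - pp b| + |pp b - pp a| := by
      have := abs_add_le (z.1 - pp b) (pp b - pp a)
      rwa [sub_add_sub_cancel] at this
    have h5 := abs_nonneg (pp b - pp a)
    constructor <;> linarith
  have hdisj : ∀ a b, a ≠ b → ¬ r a b → ¬ r b a → ∀ z : ℝ × ℝ, |z.1 - pp a| ≤ ρ a →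
      |z.1 - pp b| ≤ ρ b → False := by
    intro a b hne hab hba z h1 h2
    have h3 := hsq.disj a b hne hab hba
    have h4 : |pp a - pp b| ≤ |pp a - z.1| + |z.1 - pp b| := by
      have := abs_add_le (pp a - z.1) (z.1 - pp b)
      rwa [sub_add_sub_cancel] at this
    rw [abs_sub_comm (pp a) z.1] at h4
    linarith
  have hring : ∀ a b, a ≠ b → ∀ z : ℝ × ℝ, z ∈ ring (pp a) (ρ a) → z ∈ ring (pp b) (ρ b) → False := by
    intro a b hne z ha hb
    by_cases hab : r a b
    · obtain ⟨h1, h2⟩ := hnest a b hab z hb.1 hb.2.1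
      rcases ha.2.2 with h | h <;> linarith
    · by_cases hba : r b a
      · obtain ⟨h1, h2⟩ := hnest b a hba z ha.1 ha.2.1
        rcases hb.2.2 with h | h <;> linarith
      · exact hdisj a b hne hab hba z ha.1 hb.1
  have hne : ∀ a, (C a).Nonempty := by
    intro a
    obtain ⟨⟨γ, T, -, -, -, -, hγ⟩, -⟩ := hC1 a
    rw [hγ]
    exact range_nonempty γ
  refine ⟨C, hC1, ?_, ?_, ?_⟩
  · intro a q hq
    obtain ⟨z, hz, hqz⟩ := hC2 a q hq
    have h1 := hsq.bdd a
    have h2 : |z.1| ≤ |z.1 - pp a| + |pp a| := by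
      have := abs_add_le (z.1 - pp a) (pp a)
      rwa [sub_add_cancel] at this
    have h3 := hz.1
    have h4 := hz.2.1
    have h5 := abs_nonneg (pp a)
    exact ⟨z.1, z.2, by linarith, by linarith, hqz⟩
  · intro a b hab
    rw [Set.disjoint_left]
    intro q hqa hqb
    obtain ⟨z, hz, hqz⟩ := hC2 a q hqa
    obtain ⟨z', hz', hqz'⟩ := hC2 b q hqb
    have h1 := hinj z z' (hqz.symm.trans hqz')
    rw [← h1] at hz'
    exact hring a b hab z hz hz'
  · intro a b
    constructor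
    · intro hS
      by_contra hab
      by_cases hne2 : a = b
      · obtain ⟨q, hq⟩ := hne b
        have := (hS q hq).1
        rw [hne2] at this
        exact this hq
      · have hout : ∀ z ∈ ring (pp b) (ρ b), ¬ (|z.1 - pp a| ≤ ρ a ∧ |z.2| ≤ ρ a) := by
          rintro z hz ⟨h1, h2⟩
          by_cases hba : r b a
          · obtain ⟨h3, h4⟩ := hnest b a hba z h1 h2
            rcases hz.2.2 with h | h <;> linarith
          · exact hdisj a b hne2 hab hba z h1 hz.1
        refine ext_all (C a) (C b) (x₀ * Real.exp ((pp a - ρ a) / s))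
          (x₀ * Real.exp ((pp a + ρ a) / s)) (y₀ * Real.exp ((-ρ a) / s))
          (y₀ * Real.exp (ρ a / s)) (hne b) ?_ ?_ hS
        · intro q hq
          obtain ⟨z, hz, hqz⟩ := hC2 a q hq
          have h1 := abs_le.1 hz.1
          have h2 := abs_le.1 hz.2.1
          rw [hqz]
          refine ⟨hmono' x₀ hx _ _ (by linarith), hmono' x₀ hx _ _ (by linarith),
            hmono' y₀ hy _ _ (by linarith), hmono' y₀ hy _ _ (by linarith)⟩
        · rintro q hq ⟨h1, h2, h3, h4⟩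
          obtain ⟨z, hz, hqz⟩ := hC2 b q hq
          rw [hqz] at h1 h2 h3 h4
          have h5 := hmono x₀ hx _ _ h1
          have h6 := hmono x₀ hx _ _ h2
          have h7 := hmono y₀ hy _ _ h3
          have h8 := hmono y₀ hy _ _ h4
          exact hout z hz ⟨abs_le.2 ⟨by linarith, by linarith⟩, abs_le.2 ⟨by linarith, by linarith⟩⟩
    · intro hab q hq
      obtain ⟨z, hz, hqz⟩ := hC2 b q hq
      obtain ⟨h1, h2⟩ := hnest a b hab z hz.1 hz.2.1
      set U : Set (ℝ × ℝ) := Ioo (pp a - ρ a / 2) (pp a + ρ a / 2) ×ˢ Ioo (-(ρ a / 2)) (ρ a / 2)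
        with hU
      have hmemU : ∀ z : ℝ × ℝ, z ∈ U → |z.1 - pp a| < ρ a / 2 ∧ |z.2| < ρ a / 2 := by
        rintro z ⟨⟨g1, g2⟩, g3, g4⟩
        exact ⟨abs_lt.2 ⟨by linarith, by linarith⟩, abs_lt.2 ⟨by linarith, by linarith⟩⟩
      have hzU : z ∈ U := by
        have g1 := abs_lt.1 h1
        have g2 := abs_lt.1 h2
        exact ⟨⟨by linarith, by linarith⟩, by linarith, by linarith⟩
      have hcU : ((pp a, 0) : ℝ × ℝ) ∈ U := by
        have := hsq.pos a
        exact ⟨⟨by simp only; linarith, by simp only; linarith⟩, by simp only; linarith,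
          by simp only; linarith⟩
      have hpre : IsPreconnected U := isPreconnected_Ioo.prod isPreconnected_Ioo
      have hpre2 : IsPreconnected
          ((fun z : ℝ × ℝ => (x₀ * Real.exp (z.1 / s), y₀ * Real.exp (z.2 / s))) '' U) :=
        hpre.image _ (by fun_prop)
      have hsub : ((fun z : ℝ × ℝ => (x₀ * Real.exp (z.1 / s), y₀ * Real.exp (z.2 / s))) '' U) ⊆
          (C a)ᶜ := by
        rintro _ ⟨z', hz', rfl⟩ hmem
        obtain ⟨z'', hz'', he⟩ := hC2 a _ hmem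
        have h3 := hinj _ _ he
        obtain ⟨h4, h5⟩ := hmemU z' hz'
        rw [h3] at h4 h5
        rcases hz''.2.2 with h | h <;> linarith
      have hqU : q ∈ ((fun z : ℝ × ℝ => (x₀ * Real.exp (z.1 / s), y₀ * Real.exp (z.2 / s))) '' U) :=
        ⟨z, hzU, hqz.symm⟩
      have hcU2 : ((x₀ * Real.exp (pp a / s), y₀) : ℝ × ℝ) ∈
          ((fun z : ℝ × ℝ => (x₀ * Real.exp (z.1 / s), y₀ * Real.exp (z.2 / s))) '' U) :=
        ⟨(pp a, 0), hcU, by simp⟩
      refine ⟨hsub hqU, ?_⟩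
      have h6 := hpre2.subset_connectedComponentIn hcU2 hsub hqU
      rw [← connectedComponentIn_eq h6]
      exact hC3 a

end Pool.Agent.Y968.KS
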